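import Pool.Agent.Lib.MP_21ae20_al.E1

open Pool.Agent.Lib.MP21ae20

namespace Pool.Agent.Results.MP_21ae20_al.ExponentialRate

/-- For every finite generating set `S` of `Out(F_N)`, `N ≥ 2`, there are `a > 0`, `C` and
`0 < r < 1` such that the proportion of elements of the ball `B_S(n)` whose translation length on
the free factor graph is at least `a n` is at least `1 - C r ^ n`, for all `n`. -/
theorem result (N : ℕ) (hN : 2 ≤ N) (S : Set (Out (FreeGroup (Fin N)))) (hfin : S.Finite)
    (hS : Subgroup.closure S = ⊤) :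
    ∃ a C r : ℝ, 0 < a ∧ 0 < r ∧ r < 1 ∧ ∀ (x : Vertex (FreeGroup (Fin N))) (n : ℕ),
      1 - C * r ^ n ≤ ({g ∈ ball S n | a * n ≤ translationLength x g}.ncard : ℝ) /
        (ball S n).ncard :=
  main_exp hN S hfin hS

end Pool.Agent.Results.MP_21ae20_al.ExponentialRate
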